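import Pool.Agent.W945.Pw.Stm

/-!
# Project PW: closing the bags of a path decomposition (PW-BAG)
-/

set_option autoImplicit false

namespace Pool.Agent.W585.Pw.BAG

open Pool.Agent.W945.Pw Finset

/-- the first argument of a gate -/
def arg1 {n s : ℕ} (C : Circuit n s) (v : Fin s) : Fin s :=
  match C.gate v with
  | .input _ => v
  | .const _ => v
  | .op _ a _ => a

/-- the second argument of a gate -/
def arg2 {n s : ℕ} (C : Circuit n s) (v : Fin s) : Fin s :=
  match C.gate v with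
  | .input _ => v
  | .const _ => v
  | .op _ _ b => b

theorem wire_arg {n s : ℕ} (C : Circuit n s) (u v : Fin s) (h : C.Wire u v) :
    u = arg1 C v ∨ u = arg2 C v := by
  obtain ⟨g, a, b, h1, h2⟩ := h
  unfold arg1 arg2
  rw [h1]
  exact h2

/-- PW-BAG -/
theorem main : Pool.Agent.W945.Pw.BAG.Stm := by
  classical
  intro n s b C hdec
  obtain ⟨r, bag, -, hcov, hedge, hint, hcard⟩ := hdec
  obtain ⟨bag', hb⟩ : ∃ bag' : ℕ → Finset (Fin s), ∀ t u, u ∈ bag' t ↔
      u ∈ bag t ∨ ∃ v ∈ bag t, C.Wire u v :=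
    ⟨fun t => univ.filter fun u => u ∈ bag t ∨ ∃ v ∈ bag t, C.Wire u v, fun t u => by simp⟩
  refine ⟨r, bag', ?_, ?_, ?_⟩
  · intro v
    obtain ⟨t, ht, hv⟩ := hcov v (mem_univ v)
    exact ⟨t, ht, (hb t v).2 (Or.inl hv), fun u hu => (hb t u).2 (Or.inr ⟨v, hv, hu⟩)⟩
  · intro u t₁ t₂ t₃ h12 h23 h1 h3
    have key : ∀ t, u ∈ bag' t → ∃ v e, v ∈ bag t ∧ (∀ t', v ∈ bag t' → u ∈ bag' t') ∧
        u ∈ bag e ∧ v ∈ bag e := by
      intro t ht
      rcases (hb t u).1 ht with h | ⟨v, hv, hw⟩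
      · exact ⟨u, t, h, fun t' h' => (hb t' u).2 (Or.inl h'), h, h⟩
      · obtain ⟨e, -, he1, he2⟩ := hedge u (mem_univ u) v (mem_univ v) hw
        exact ⟨v, e, hv, fun t' h' => (hb t' u).2 (Or.inr ⟨v, h', hw⟩), he1, he2⟩
    obtain ⟨v, e, hv1, hv2, hue, hve⟩ := key t₁ h1
    obtain ⟨v', e', hv1', hv2', hue', hve'⟩ := key t₃ h3
    rcases le_total t₂ e with h | h
    · exact hv2 t₂ (hint v t₁ t₂ e h12 h hv1 hve)
    · rcases le_total e' t₂ with h' | h'
      · exact hv2' t₂ (hint v' e' t₂ t₃ h' h23 hve' hv1')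
      · exact (hb t₂ u).2 (Or.inl (hint u e t₂ e' h h' hue hue'))
  · intro t
    have h1 : bag' t ⊆ bag t ∪ ((bag t).image (arg1 C) ∪ (bag t).image (arg2 C)) := by
      intro u hu
      rcases (hb t u).1 hu with h | ⟨v, hv, hw⟩
      · exact mem_union_left _ h
      · rcases wire_arg C u v hw with h | h
        · exact mem_union_right _ (mem_union_left _ (mem_image.2 ⟨v, hv, h.symm⟩))
        · exact mem_union_right _ (mem_union_right _ (mem_image.2 ⟨v, hv, h.symm⟩))
    have h2 := card_le_card h1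
    have h3 := card_union_le (bag t) ((bag t).image (arg1 C) ∪ (bag t).image (arg2 C))
    have h4 := card_union_le ((bag t).image (arg1 C)) ((bag t).image (arg2 C))
    have h5 : ((bag t).image (arg1 C)).card ≤ (bag t).card := card_image_le
    have h6 : ((bag t).image (arg2 C)).card ≤ (bag t).card := card_image_le
    have h7 : (bag t).card ≤ b := by exact_mod_cast hcard t
    omega

end Pool.Agent.W585.Pw.BAG
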